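import Mathlib

/-!
# A triplet cover of a binary phylogenetic tree that is not shellable

The points and thirteen of the fifteen lines of the generalized quadrangle of order two. The lines
are triples of leaves; the binary tree (15 leaves, 13 interior vertices) is chosen such that the
lines have distinct medians, so the 39 pairs of points on the lines form a triplet cover. As the
generalized quadrangle has no triangles, no four leaves have five of their six pairs in the cover,
and no pair can be added by a shelling.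
-/

set_option autoImplicit false

namespace Pool.Agent.Results.MP_66d22e_co.NotShellable

/-- `T` is a binary phylogenetic `X`-tree: a tree in which the vertices of degree one are exactly
the vertices `leaf x`, one for each `x` in `X`, and in which all other vertices have degree
three. -/
def IsBinaryPhyloTree {X V : Type} (T : SimpleGraph V) (leaf : X → V) : Prop :=
  T.IsTree ∧ Function.Injective leaf ∧
    (∀ v, v ∈ Set.range leaf → (T.neighborSet v).ncard = 1) ∧
    ∀ v, v ∉ Set.range leaf → (T.neighborSet v).ncard = 3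

/-- The connected component of the vertex `u` in the graph `T` with the vertex `v` removed. -/
def component {V : Type} (T : SimpleGraph V) (v u : V) (hu : u ≠ v) :
    (T.induce {w | w ≠ v}).ConnectedComponent :=
  (T.induce {w | w ≠ v}).connectedComponentMk ⟨u, hu⟩

/-- The triple `a b c` of leaves supports the vertex `v` relative to the set `C` of pairs: the
three leaves lie in three different connected components of `T` minus `v`, and their three pairs
belong to `C`. -/
def Supports {X V : Type} (T : SimpleGraph V) (leaf : X → V) (C : Set (Sym2 X)) (v : V)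
    (a b c : X) : Prop :=
  (∃ (ha : leaf a ≠ v) (hb : leaf b ≠ v) (hc : leaf c ≠ v),
    component T v (leaf a) ha ≠ component T v (leaf b) hb ∧
    component T v (leaf a) ha ≠ component T v (leaf c) hc ∧
    component T v (leaf b) hb ≠ component T v (leaf c) hc) ∧
  s(a, b) ∈ C ∧ s(a, c) ∈ C ∧ s(b, c) ∈ C

/-- `C` is a triplet cover for `T`: a set of pairs of distinct leaves such that every interior
vertex is supported by some triple. -/
def IsTripletCover {X V : Type} (T : SimpleGraph V) (leaf : X → V) (C : Set (Sym2 X)) : Prop :=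
  (∀ e ∈ C, ¬ e.IsDiag) ∧
    ∀ v, v ∉ Set.range leaf → ∃ a b c : X, Supports T leaf C v a b c

/-- The restriction of `T` to the leaves `x, a, y, b` is the quartet `xa|yb`: the path from `x` to
`a` and the path from `y` to `b` have no common vertex. -/
def IsQuartet {X V : Type} (T : SimpleGraph V) (leaf : X → V) (x a y b : X) : Prop :=
  ∀ (p : T.Path (leaf x) (leaf a)) (q : T.Path (leaf y) (leaf b)) (u : V),
    u ∈ p.1.support → u ∉ q.1.support

/-- `C` is `T`-shellable: the pairs of distinct leaves outside `C` can be ordered as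
`a 0 b 0, a 1 b 1, ...` (each exactly once) such that for every `i` there are distinct `x, y`,
different from `a i` and `b i`, such that `T` restricted to the four leaves is the quartet
`x (a i) | y (b i)` and the five pairs other than `a i, b i` lie in `C` or are among the earlier
pairs. -/
def IsShellable {X V : Type} (T : SimpleGraph V) (leaf : X → V) (C : Set (Sym2 X)) : Prop :=
  ∃ (m : ℕ) (a b : Fin m → X),
    Function.Injective (fun i => s(a i, b i)) ∧
    Set.range (fun i => s(a i, b i)) = {e : Sym2 X | ¬ e.IsDiag ∧ e ∉ C} ∧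
    ∀ i, ∃ x y : X, x ≠ y ∧ x ≠ a i ∧ x ≠ b i ∧ y ≠ a i ∧ y ≠ b i ∧
      IsQuartet T leaf x (a i) y (b i) ∧
      ∀ e ∈ ({s(x, a i), s(x, b i), s(y, a i), s(y, b i), s(x, y)} : Set (Sym2 X)),
        e ∈ C ∨ ∃ j, j < i ∧ e = s(a j, b j)

/-! ### The example -/

/-- parent table of the tree (root `0`) -/
def parL : List ℕ :=
  [0, 0, 0, 0, 2, 2, 3, 3, 5, 5, 6, 6, 7, 7, 9, 9, 11, 11, 13, 13, 15, 15, 21, 21, 23, 23, 25, 25]

/-- leaf table -/
def leafL : List ℕ := [1, 26, 18, 20, 16, 17, 8, 27, 12, 24, 4, 19, 22, 10, 14]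

/-- the neighbours of each leaf in the cover, as bit masks -/
def maskL : List ℕ :=
  [6144, 29120, 19872, 11104, 5856, 28700, 19482, 10774, 5646, 408, 340, 4301, 2355, 170, 102]

def par (v : Fin 28) : Fin 28 := Fin.ofNat 28 (parL.getD v.1 0)

def lf (x : Fin 15) : Fin 28 := Fin.ofNat 28 (leafL.getD x.1 0)

def cov (x y : Fin 15) : Bool := (maskL.getD x.1 0).testBit y.1

/-- component tables and supporting triples -/
def tab : List (List ℕ × (Fin 15 × Fin 15 × Fin 15)) :=
  [([9,0,1,2,1,1,2,2,1,1,2,2,2,2,1,1,2,2,2,2,1,1,1,1,1,1,1,1], (0, 11, 12)),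
   ([], (0, 0, 0)),
   ([1,1,9,1,0,2,1,1,2,2,1,1,1,1,2,2,1,1,1,1,2,2,2,2,2,2,2,2], (4, 6, 10)),
   ([0,0,0,9,0,0,1,2,0,0,1,1,2,2,0,0,1,1,2,2,0,0,0,0,0,0,0,0], (2, 5, 14)),
   ([], (0, 0, 0)),
   ([2,2,2,2,2,9,2,2,0,1,2,2,2,2,1,1,2,2,2,2,1,1,1,1,1,1,1,1], (3, 6, 11)),
   ([2,2,2,2,2,2,9,2,2,2,0,1,2,2,2,2,1,1,2,2,2,2,2,2,2,2,2,2], (3, 5, 13)),
   ([2,2,2,2,2,2,2,9,2,2,2,2,0,1,2,2,2,2,1,1,2,2,2,2,2,2,2,2], (2, 8, 10)),
   ([], (0, 0, 0)),
   ([2,2,2,2,2,2,2,2,2,9,2,2,2,2,0,1,2,2,2,2,1,1,1,1,1,1,1,1], (1, 6, 14)),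
   ([], (0, 0, 0)),
   ([2,2,2,2,2,2,2,2,2,2,2,9,2,2,2,2,0,1,2,2,2,2,2,2,2,2,2,2], (4, 5, 12)),
   ([], (0, 0, 0)),
   ([2,2,2,2,2,2,2,2,2,2,2,2,2,9,2,2,2,2,0,1,2,2,2,2,2,2,2,2], (2, 7, 11)),
   ([], (0, 0, 0)),
   ([1,1,1,1,1,1,1,1,1,1,1,1,1,1,1,9,1,1,1,1,0,2,2,2,2,2,2,2], (3, 8, 9)),
   ([], (0, 0, 0)),
   ([], (0, 0, 0)),
   ([], (0, 0, 0)),
   ([], (0, 0, 0)),
   ([], (0, 0, 0)),
   ([2,2,2,2,2,2,2,2,2,2,2,2,2,2,2,2,2,2,2,2,2,9,0,1,1,1,1,1], (1, 8, 12)),
   ([], (0, 0, 0)),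
   ([2,2,2,2,2,2,2,2,2,2,2,2,2,2,2,2,2,2,2,2,2,2,2,9,0,1,1,1], (4, 7, 9)),
   ([], (0, 0, 0)),
   ([2,2,2,2,2,2,2,2,2,2,2,2,2,2,2,2,2,2,2,2,2,2,2,2,2,9,0,1], (1, 7, 13)),
   ([], (0, 0, 0)),
   ([], (0, 0, 0))]

/-- the component of `u` in the tree minus `v` -/
def cmp (v u : Fin 28) : ℕ := ((tab.getD v.1 ([], (0, 0, 0))).1).getD u.1 0

def tr (v : Fin 28) : Fin 15 × Fin 15 × Fin 15 := (tab.getD v.1 ([], (0, 0, 0))).2

/-- the tree -/
def T : SimpleGraph (Fin 28) where
  Adj v w := v ≠ w ∧ (par v = w ∨ par w = v)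
  symm := ⟨fun _ _ h => ⟨h.1.symm, h.2.symm⟩⟩
  loopless := ⟨fun _ h => h.1 rfl⟩

instance : DecidableRel T.Adj := fun v w =>
  inferInstanceAs (Decidable (v ≠ w ∧ (par v = w ∨ par w = v)))

/-- the cover -/
def C : Set (Sym2 (Fin 15)) := {e | ∃ x y : Fin 15, e = s(x, y) ∧ cov x y = true}

lemma par_lt (v : Fin 28) (hv : v ≠ 0) : (par v).1 < v.1 := by
  revert v; decide

lemma T_connected : T.Connected := by
  have h : ∀ n : ℕ, ∀ v : Fin 28, v.1 = n → T.Reachable v 0 := by
    intro n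
    induction n using Nat.strong_induction_on with
    | _ n ih =>
      intro v hv
      by_cases h0 : v = 0
      · rw [h0]
      · have h1 := par_lt v h0
        have h2 : T.Adj v (par v) := ⟨fun h => by rw [← h] at h1; exact lt_irrefl _ h1, Or.inl rfl⟩
        exact h2.reachable.trans (ih _ (hv ▸ h1) _ rfl)
  have : Nonempty (Fin 28) := ⟨0⟩
  exact SimpleGraph.Connected.mk (fun v w => (h _ v rfl).trans (h _ w rfl).symm)

lemma T_isTree : T.IsTree := by
  rw [SimpleGraph.isTree_iff_connected_and_card]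
  refine ⟨T_connected, ?_⟩
  rw [Nat.card_eq_fintype_card, Nat.card_eq_fintype_card, Fintype.card_fin,
    ← SimpleGraph.edgeFinset_card]
  have h : T.edgeFinset = (Finset.univ.erase (0 : Fin 28)).image (fun v => s(v, par v)) := by
    ext e
    induction e using Sym2.ind with
    | _ v w =>
      rw [SimpleGraph.mem_edgeFinset, SimpleGraph.mem_edgeSet, Finset.mem_image]
      constructor
      · rintro ⟨hne, h | h⟩
        · refine ⟨v, ?_, by rw [h]⟩
          rw [Finset.mem_erase]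
          refine ⟨fun h0 => hne ?_, Finset.mem_univ _⟩
          rw [← h, h0]; decide
        · refine ⟨w, ?_, by rw [h, Sym2.eq_swap]⟩
          rw [Finset.mem_erase]
          refine ⟨fun h0 => hne ?_, Finset.mem_univ _⟩
          rw [← h, h0]; decide
      · rintro ⟨u, hu, h⟩
        rw [Finset.mem_erase] at hu
        have h1 := par_lt u hu.1
        have hne : u ≠ par u := fun h => by rw [← h] at h1; exact lt_irrefl _ h1
        rw [Sym2.eq_iff] at h
        rcases h with ⟨rfl, rfl⟩ | ⟨rfl, rfl⟩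
        · exact ⟨hne, Or.inl rfl⟩
        · exact ⟨hne.symm, Or.inr rfl⟩
  rw [h, Finset.card_image_of_injOn, Finset.card_erase_of_mem (Finset.mem_univ _)]
  · simp
  · intro u hu w hw h
    simp only [Finset.coe_erase, Finset.coe_univ, Set.mem_sdiff, Set.mem_univ,
      Set.mem_singleton_iff, true_and] at hu hw
    have h1 := par_lt u hu
    have h2 := par_lt w hw
    simp only at h
    rw [Sym2.eq_iff] at h
    rcases h with ⟨h, _⟩ | ⟨h3, h4⟩
    · exact h
    · rw [← h3] at h2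
      rw [h4] at h1
      exact absurd h1 (by omega)

lemma range_lf (v : Fin 28) : v ∈ Set.range lf ↔ ∃ x : Fin 15, lf x = v := Iff.rfl

lemma deg_leaf : ∀ x : Fin 15, (T.neighborFinset (lf x)).card = 1 := by decide +kernel

lemma deg_int : ∀ v : Fin 28, (∀ x : Fin 15, lf x ≠ v) → (T.neighborFinset v).card = 3 := by
  decide +kernel

lemma ncard_nb (v : Fin 28) : (T.neighborSet v).ncard = (T.neighborFinset v).card := by
  rw [Set.ncard_eq_toFinset_card', SimpleGraph.neighborFinset]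

lemma phylo : IsBinaryPhyloTree T lf := by
  refine ⟨T_isTree, ?_, ?_, ?_⟩
  · intro x y; revert x y; decide +kernel
  · rintro v ⟨x, rfl⟩
    rw [ncard_nb]; exact deg_leaf x
  · intro v hv
    rw [ncard_nb]
    exact deg_int v (fun x hx => hv ⟨x, hx⟩)

lemma cmp_adj : ∀ v : Fin 28, (∀ x : Fin 15, lf x ≠ v) → ∀ u w : Fin 28, u ≠ v → w ≠ v →
    T.Adj u w → cmp v u = cmp v w := by
  decide +kernel

lemma tr_spec : ∀ v : Fin 28, (∀ x : Fin 15, lf x ≠ v) →
    (cmp v (lf (tr v).1) ≠ cmp v (lf (tr v).2.1) ∧ cmp v (lf (tr v).1) ≠ cmp v (lf (tr v).2.2) ∧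
      cmp v (lf (tr v).2.1) ≠ cmp v (lf (tr v).2.2)) ∧
    (cov (tr v).1 (tr v).2.1 = true ∧ cov (tr v).1 (tr v).2.2 = true ∧
      cov (tr v).2.1 (tr v).2.2 = true) := by
  decide +kernel

lemma comp_ne {v u w : Fin 28} (hv : ∀ x : Fin 15, lf x ≠ v) (hu : u ≠ v) (hw : w ≠ v)
    (h : cmp v u ≠ cmp v w) : component T v u hu ≠ component T v w hw := by
  intro heq
  apply h
  have h1 : (T.induce {w | w ≠ v}).Reachable ⟨u, hu⟩ ⟨w, hw⟩ :=
    SimpleGraph.ConnectedComponent.exact heq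
  obtain ⟨p⟩ := h1
  have key : ∀ (a b : {w : Fin 28 | w ≠ v}), (T.induce {w | w ≠ v}).Walk a b →
      cmp v a.1 = cmp v b.1 := by
    intro a b p
    induction p with
    | nil => rfl
    | @cons a c b hadj _ ih => exact (cmp_adj v hv a.1 c.1 a.2 c.2 hadj).trans ih
  exact key _ _ p

lemma cov_irrefl : ∀ x : Fin 15, cov x x = false := by decide +kernel

lemma cov_symm : ∀ x y : Fin 15, cov x y = cov y x := by decide +kernel

/-- two adjacent leaves have at most one common neighbour -/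
lemma common : ∀ x y : Fin 15, cov x y = true → ∀ a : Fin 15, cov x a = true → cov y a = true →
    ∀ b : Fin 15, cov x b = true → cov y b = true → a = b := by
  decide +kernel

lemma mem_C (x y : Fin 15) : s(x, y) ∈ C ↔ cov x y = true := by
  constructor
  · rintro ⟨a, b, h, hab⟩
    rw [Sym2.eq_iff] at h
    rcases h with ⟨rfl, rfl⟩ | ⟨rfl, rfl⟩
    · exact hab
    · rw [cov_symm]; exact hab
  · intro h
    exact ⟨x, y, rfl, h⟩

lemma cover : IsTripletCover T lf C := by
  constructor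
  · intro e he
    obtain ⟨x, y, rfl, h⟩ := he
    rw [Sym2.mk_isDiag_iff]
    rintro rfl
    rw [cov_irrefl] at h
    exact Bool.false_ne_true h
  · intro v hv
    have hv' : ∀ x : Fin 15, lf x ≠ v := fun x hx => hv ⟨x, hx⟩
    obtain ⟨⟨h1, h2, h3⟩, h4, h5, h6⟩ := tr_spec v hv'
    exact ⟨(tr v).1, (tr v).2.1, (tr v).2.2, ⟨hv' _, hv' _, hv' _, comp_ne hv' _ _ h1,
      comp_ne hv' _ _ h2, comp_ne hv' _ _ h3⟩, (mem_C _ _).2 h4, (mem_C _ _).2 h5,
      (mem_C _ _).2 h6⟩

lemma not_shellable : ¬ IsShellable T lf C := by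
  rintro ⟨m, a, b, -, hr, h⟩
  have h01 : s((0 : Fin 15), (1 : Fin 15)) ∈ Set.range (fun i => s(a i, b i)) := by
    rw [hr]
    refine ⟨by decide, ?_⟩
    rw [mem_C]
    decide
  obtain ⟨i0, _⟩ := h01
  have hm : 0 < m := i0.pos
  obtain ⟨x, y, hxy, hxa, hxb, hya, hyb, -, hP⟩ := h ⟨0, hm⟩
  have key : ∀ e ∈ ({s(x, a ⟨0, hm⟩), s(x, b ⟨0, hm⟩), s(y, a ⟨0, hm⟩), s(y, b ⟨0, hm⟩), s(x, y)} :
      Set (Sym2 (Fin 15))), e ∈ C := by
    intro e he
    rcases hP e he with h1 | ⟨j, hj, -⟩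
    · exact h1
    · exact absurd hj (by simp [Fin.lt_def])
  have k1 := (mem_C _ _).1 (key s(x, a ⟨0, hm⟩) (by simp))
  have k2 := (mem_C _ _).1 (key s(x, b ⟨0, hm⟩) (by simp))
  have k3 := (mem_C _ _).1 (key s(y, a ⟨0, hm⟩) (by simp))
  have k4 := (mem_C _ _).1 (key s(y, b ⟨0, hm⟩) (by simp))
  have k5 := (mem_C _ _).1 (key s(x, y) (by simp))
  have hab := common x y k5 _ k1 k3 _ k2 k4
  have h0 : s(a ⟨0, hm⟩, b ⟨0, hm⟩) ∈ {e : Sym2 (Fin 15) | ¬ e.IsDiag ∧ e ∉ C} := by
    rw [← hr]; exact ⟨_, rfl⟩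
  exact h0.1 (by rw [Sym2.mk_isDiag_iff]; exact hab)

/-- There are a finite set `X` with at least three elements, a binary phylogenetic `X`-tree and a
triplet cover for it that is not shellable. -/
theorem result : ∃ (X V : Type) (_ : Finite X) (_ : Finite V) (T : SimpleGraph V) (leaf : X → V)
    (C : Set (Sym2 X)), 3 ≤ Nat.card X ∧ IsBinaryPhyloTree T leaf ∧ IsTripletCover T leaf C ∧
      ¬ IsShellable T leaf C :=
  ⟨Fin 15, Fin 28, inferInstance, inferInstance, T, lf, C, by simp, phylo, cover, not_shellable⟩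

end Pool.Agent.Results.MP_66d22e_co.NotShellable
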